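import Pool.Agent.U19.PM.Red

/-!
# Correctness of the reduction
-/

namespace Pool.Agent.NPC.U19.PM

/-- a perfect matching from a bijection -/
theorem isPM_of_fun {α β : Type} {U : List α} {V : List β} {E : List (α × β)} (f : α → β)
    (g : β → α) (h1 : ∀ u ∈ U, f u ∈ V ∧ g (f u) = u ∧ (u, f u) ∈ E)
    (h2 : ∀ v ∈ V, g v ∈ U ∧ f (g v) = v) : IsPM U V E {e | e.1 ∈ U ∧ e.2 = f e.1} := by
  refine ⟨?_, ?_, ?_⟩
  · rintro ⟨u, v⟩ ⟨hu, hv⟩
    simp only at hu hv
    subst hv
    exact (h1 u hu).2.2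
  · intro u hu
    exact ⟨f u, ⟨hu, rfl⟩, fun z hz => hz.2⟩
  · intro v hv
    refine ⟨g v, ⟨(h2 v hv).1, (h2 v hv).2.symm⟩, ?_⟩
    rintro z ⟨hz, hz'⟩
    simp only at hz hz'
    rw [hz', (h1 z hz).2.1]

/-- the literals in the order of the occurrences -/
def lits (φ : List Cl) : List (Lit ℕ) := φ.flatMap (fun c => [c.1, c.2.1, c.2.2])

theorem length_lits (φ : List Cl) : (lits φ).length = 3 * φ.length := by
  unfold lits
  induction φ with
  | nil => rfl
  | cons c φ ih => rw [List.flatMap_cons, List.length_append, ih]; simp; omega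

theorem mem_occ {φ : List Cl} {l : Lit ℕ} {i : ℕ} : (l, i) ∈ occ φ ↔ (lits φ)[i]? = some l := by
  unfold occ
  rw [List.mem_zipIdx_iff_getElem?]
  rfl

theorem getElem?_lits (φ : List Cl) (c : ℕ) :
    (lits φ)[3 * c]? = (φ[c]?).map (fun d => d.1) ∧
    (lits φ)[3 * c + 1]? = (φ[c]?).map (fun d => d.2.1) ∧
    (lits φ)[3 * c + 2]? = (φ[c]?).map (fun d => d.2.2) := by
  induction φ generalizing c with
  | nil => simp [lits]
  | cons d φ ih =>
    have h : lits (d :: φ) = d.1 :: d.2.1 :: d.2.2 :: lits φ := by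
      unfold lits
      rw [List.flatMap_cons]
      rfl
    rw [h]
    cases c with
    | zero => simp
    | succ c =>
      have h1 : 3 * (c + 1) = 3 * c + 1 + 1 + 1 := by ring
      have h2 : 3 * (c + 1) + 1 = (3 * c + 1) + 1 + 1 + 1 := by ring
      have h3 : 3 * (c + 1) + 2 = (3 * c + 2) + 1 + 1 + 1 := by ring
      rw [h2, h3, h1]
      simp only [List.getElem?_cons_succ]
      exact ih c

theorem occ_lt {φ : List Cl} {l : Lit ℕ} {i : ℕ} (h : (l, i) ∈ occ φ) : i < 3 * φ.length := by
  rw [mem_occ] at h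
  rw [← length_lits]
  by_contra hn
  rw [List.getElem?_eq_none (by omega)] at h
  simp at h

theorem occ_var_lt {φ : List Cl} (hb : Bounded3 φ) {s : Bool} {x i : ℕ}
    (h : ((s, x), i) ∈ occ φ) : x < 3 * φ.length := by
  rw [mem_occ] at h
  have h1 := List.mem_of_getElem? h
  unfold lits at h1
  obtain ⟨c, hc, h2⟩ := List.mem_flatMap.1 h1
  obtain ⟨b1, b2, b3⟩ := hb c hc
  simp only [List.mem_cons, List.not_mem_nil, or_false] at h2
  rcases h2 with h2 | h2 | h2
  · rw [← h2] at b1; exact b1
  · rw [← h2] at b2; exact b2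
  · rw [← h2] at b3; exact b3

theorem sat_iff (φ : List Cl) (τ : ℕ → Bool) :
    (∀ c ∈ φ, τ c.1.2 = c.1.1 ∨ τ c.2.1.2 = c.2.1.1 ∨ τ c.2.2.2 = c.2.2.1) ↔
      ∀ c < φ.length, ∃ s x i, ((s, x), i) ∈ occ φ ∧ i / 3 = c ∧ τ x = s := by
  constructor
  · intro h c hc
    obtain ⟨g1, g2, g3⟩ := getElem?_lits φ c
    rw [List.getElem?_eq_getElem hc] at g1 g2 g3
    rcases h _ (List.getElem_mem hc) with h | h | h
    · exact ⟨_, _, _, mem_occ.2 g1, by omega, h⟩
    · exact ⟨_, _, _, mem_occ.2 g2, by omega, h⟩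
    · exact ⟨_, _, _, mem_occ.2 g3, by omega, h⟩
  · intro h d hd
    obtain ⟨c, hc, rfl⟩ := List.getElem_of_mem hd
    obtain ⟨s, x, i, ho, hi, hs⟩ := h c hc
    obtain ⟨g1, g2, g3⟩ := getElem?_lits φ c
    rw [List.getElem?_eq_getElem hc] at g1 g2 g3
    rw [mem_occ] at ho
    have : i = 3 * c ∨ i = 3 * c + 1 ∨ i = 3 * c + 2 := by omega
    rcases this with rfl | rfl | rfl
    · rw [g1] at ho
      simp only [Option.map_some, Option.some.injEq] at ho
      left
      rw [ho]
      exact hs
    · rw [g2] at ho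
      simp only [Option.map_some, Option.some.injEq] at ho
      right; left
      rw [ho]
      exact hs
    · rw [g3] at ho
      simp only [Option.map_some, Option.some.injEq] at ho
      right; right
      rw [ho]
      exact hs

/-! ### From matchings to assignments -/

section Back

variable {φ : List Cl} {M₁ M₂ : Set (Nm × Nm)}

theorem sat_of_hasPair (hb : Bounded3 φ) (h : HasPair (vs φ) (vs φ) (e1 φ) (e2 φ)) : SAT3 φ := by
  classical
  obtain ⟨M₁, M₂, ⟨a1, a2, a3⟩, ⟨b1, b2, b3⟩, hd⟩ := h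
  rw [Set.disjoint_left] at hd
  set L := 12 * φ.length with hL
  have hL4 : L % 4 = 0 := by omega
  have hvar : ∀ x < 3 * φ.length, ∀ k < L, ((0, x, k) : Nm) ∈ vs φ := by
    intro x hx k hk
    exact mem_vs.2 (Or.inl ⟨x, hx, k, hk, rfl⟩)
  have hcl : ∀ c < φ.length, ((1, c, 0) : Nm) ∈ vs φ := by
    intro c hc
    exact mem_vs.2 (Or.inr ⟨c, hc, rfl⟩)
  -- odd vertices
  have hodd : ∀ x < 3 * φ.length, ∀ k < L, k % 2 = 1 → (((0, x, k), (0, x, k - 1)) : Nm × Nm) ∈ M₁ := by
    intro x hx k hk hk2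
    obtain ⟨v, hv, -⟩ := a2 _ (hvar x hx k hk)
    have h1 := a1 _ hv
    rw [mem_e1] at h1
    rcases h1 with ⟨x', hx', k', hk', h0, h2, h3⟩ | ⟨x', hx', k', hk', h0, h2, h3⟩ |
      ⟨c, hc, h2, h3⟩
    · simp only [Prod.mk.injEq] at h2
      omega
    · simp only [Prod.mk.injEq] at h2
      obtain ⟨-, rfl, rfl⟩ := h2
      rwa [h3] at hv
    · simp at h2
  have heven : ∀ x < 3 * φ.length, ∀ k < L, k % 2 = 0 →
      (((0, x, k), (0, x, k + 1)) : Nm × Nm) ∈ M₁ ∨
      (((0, x, k), (0, x, prv L k)) : Nm × Nm) ∈ M₁ := by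
    intro x hx k hk hk2
    obtain ⟨v, hv, -⟩ := a2 _ (hvar x hx k hk)
    have h1 := a1 _ hv
    rw [mem_e1] at h1
    rcases h1 with ⟨x', hx', k', hk', h0, h2, h3⟩ | ⟨x', hx', k', hk', h0, h2, h3⟩ |
      ⟨c, hc, h2, h3⟩
    · simp only [Prod.mk.injEq] at h2
      obtain ⟨-, rfl, rfl⟩ := h2
      rcases h3 with h3 | h3
      · left; rwa [h3] at hv
      · right; rwa [h3] at hv
    · simp only [Prod.mk.injEq] at h2
      omega
    · simp at h2
  have hclause : ∀ c < φ.length, (((1, c, 0), (1, c, 0)) : Nm × Nm) ∈ M₁ := by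
    intro c hc
    obtain ⟨v, hv, -⟩ := a2 _ (hcl c hc)
    have h1 := a1 _ hv
    rw [mem_e1] at h1
    rcases h1 with ⟨x', hx', k', hk', h0, h2, h3⟩ | ⟨x', hx', k', hk', h0, h2, h3⟩ |
      ⟨c', hc', h2, h3⟩
    · simp at h2
    · simp at h2
    · simp only [Prod.mk.injEq] at h2
      obtain ⟨-, rfl, -⟩ := h2
      rwa [h3] at hv
  have hind : ∀ x < 3 * φ.length, ∀ j, 2 * j + 1 < L →
      ((((0, x, 2 * j), (0, x, 2 * j + 1)) : Nm × Nm) ∈ M₁ ↔
        (((0, x, 0), (0, x, 1)) : Nm × Nm) ∈ M₁) := by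
    intro x hx j
    induction j with
    | zero => intro _; rfl
    | succ j ih =>
      intro hj
      rw [← ih (by omega)]
      obtain ⟨u, hu, huu⟩ := a3 _ (hvar x hx (2 * j + 1) (by omega))
      have hu' : u = (0, x, 2 * j) ∨ u = (0, x, 2 * (j + 1)) := by
        have h1 := a1 _ hu
        rw [mem_e1] at h1
        rcases h1 with ⟨x', hx', k', hk', h0, h2, h3⟩ | ⟨x', hx', k', hk', h0, h2, h3⟩ |
          ⟨c', hc', h2, h3⟩
        · rcases h3 with h3 | h3
          · simp only [Prod.mk.injEq] at h3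
            obtain ⟨-, rfl, h3⟩ := h3
            left
            rw [h2, show k' = 2 * j by omega]
          · simp only [Prod.mk.injEq] at h3
            obtain ⟨-, rfl, h3⟩ := h3
            right
            unfold prv at h3
            rw [h2]
            split_ifs at h3 with h4
            · omega
            · rw [show k' = 2 * (j + 1) by omega]
        · simp only [Prod.mk.injEq] at h3
          omega
        · simp at h3
      constructor
      · intro h
        rcases hu' with rfl | rfl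
        · exact hu
        · exfalso
          have h1 := (a2 _ (hvar x hx (2 * (j + 1)) (by omega))).unique h hu
          simp only [Prod.mk.injEq] at h1
          omega
      · intro h
        rcases heven x hx (2 * (j + 1)) (by omega) (by omega) with h1 | h1
        · exact h1
        · exfalso
          have h2 : prv L (2 * (j + 1)) = 2 * j + 1 := by
            unfold prv
            rw [if_neg (by omega)]
            omega
          rw [h2] at h1
          have h3 := huu _ h
          have h4 := huu _ h1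
          rw [← h3] at h4
          simp only [Prod.mk.injEq] at h4
          omega
  refine ⟨fun x => decide ((((0, x, 0), (0, x, 1)) : Nm × Nm) ∉ M₁),
    (sat_iff φ (fun x => decide ((((0, x, 0), (0, x, 1)) : Nm × Nm) ∉ M₁))).2 ?_⟩
  intro c hc
  obtain ⟨v, hv, -⟩ := b2 _ (hcl c hc)
  have h1 := b1 _ hv
  rw [List.mem_append] at h1
  have hocc : ∃ s x i, ((s, x), i) ∈ occ φ ∧ c = i / 3 ∧ v = (0, x, pp s i) := by
    rcases h1 with h1 | h1
    · rw [mem_e1] at h1
      rcases h1 with ⟨x', hx', k', hk', h0, h2, h3⟩ | ⟨x', hx', k', hk', h0, h2, h3⟩ |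
        ⟨c', hc', h2, h3⟩
      · simp at h2
      · simp at h2
      · exfalso
        simp only [Prod.mk.injEq] at h2
        obtain ⟨-, rfl, -⟩ := h2
        rw [h3] at hv
        exact hd (hclause c hc) hv
    · rw [mem_e2] at h1
      rcases h1 with ⟨x', hx', k', hk', h2, h3⟩ | ⟨s, x, i, ho, h2, h3⟩ | ⟨s, x, i, ho, h2, h3⟩
      · simp at h2
      · simp only [Prod.mk.injEq] at h2
        exact ⟨s, x, i, ho, h2.2.1, h3⟩
      · simp at h2
  obtain ⟨s, x, i, ho, rfl, rfl⟩ := hocc
  refine ⟨s, x, i, ho, rfl, ?_⟩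
  have hx := occ_var_lt hb ho
  have hi := occ_lt ho
  have hp2 : pp s i % 2 = 0 := by unfold pp; cases s <;> simp <;> omega
  have hpL : pp s i < L := by unfold pp; cases s <;> simp <;> omega
  -- the partner of the vertex `p` in the second matching
  obtain ⟨w, hw, -⟩ := b2 _ (hvar x hx (pp s i) hpL)
  have hwp : w ≠ (0, x, pp s i) := by
    rintro rfl
    have h2 := (b3 _ (hvar x hx (pp s i) hpL)).unique hw hv
    simp at h2
  have hw2 : w = (0, x, pp s i + 1) ∨ w = (0, x, prv L (pp s i)) := by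
    have h1 := b1 _ hw
    rw [List.mem_append] at h1
    rcases h1 with h1 | h1
    · rw [mem_e1] at h1
      rcases h1 with ⟨x', hx', k', hk', h0, h2, h3⟩ | ⟨x', hx', k', hk', h0, h2, h3⟩ |
        ⟨c', hc', h2, h3⟩
      · simp only [Prod.mk.injEq] at h2
        obtain ⟨-, rfl, rfl⟩ := h2
        exact h3
      · simp only [Prod.mk.injEq] at h2
        omega
      · simp at h2
    · rw [mem_e2] at h1
      rcases h1 with ⟨x', hx', k', hk', h2, h3⟩ | ⟨s', x', i', ho', h2, h3⟩ |
        ⟨s', x', i', ho', h2, h3⟩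
      · simp only [Prod.mk.injEq] at h2
        obtain ⟨-, rfl, rfl⟩ := h2
        exact absurd h3 hwp
      · simp at h2
      · simp only [Prod.mk.injEq] at h2
        omega
  -- the vertices with number `3` modulo `4` are matched with their copies
  have h3mod : ∀ k < L, k % 4 = 3 → (((0, x, k), (0, x, k)) : Nm × Nm) ∈ M₂ := by
    intro k hk hk4
    obtain ⟨z, hz, -⟩ := b2 _ (hvar x hx k hk)
    have h1 := b1 _ hz
    rw [List.mem_append] at h1
    rcases h1 with h1 | h1
    · rw [mem_e1] at h1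
      rcases h1 with ⟨x', hx', k', hk', h0, h2, h3⟩ | ⟨x', hx', k', hk', h0, h2, h3⟩ |
        ⟨c', hc', h2, h3⟩
      · simp only [Prod.mk.injEq] at h2
        omega
      · simp only [Prod.mk.injEq] at h2
        obtain ⟨-, rfl, rfl⟩ := h2
        rw [h3] at hz
        exact absurd hz (hd (hodd x hx k hk (by omega)))
      · simp at h2
    · rw [mem_e2] at h1
      rcases h1 with ⟨x', hx', k', hk', h2, h3⟩ | ⟨s', x', i', ho', h2, h3⟩ |
        ⟨s', x', i', ho', h2, h3⟩
      · simp only [Prod.mk.injEq] at h2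
        obtain ⟨-, rfl, rfl⟩ := h2
        rwa [h3] at hz
      · simp at h2
      · simp only [Prod.mk.injEq] at h2
        omega
  have hno : ∀ k < L, k % 4 = 3 → w ≠ (0, x, k) := by
    rintro k hk hk4 rfl
    have h2 := (b3 _ (hvar x hx k hk)).unique hw (h3mod k hk hk4)
    simp only [Prod.mk.injEq] at h2
    omega
  have hL0 : 0 < L := by omega
  cases s with
  | true =>
    simp only [pp, cond_true] at *
    rcases hw2 with rfl | rfl
    · have h2 : (((0, x, 4 * i), (0, x, 4 * i + 1)) : Nm × Nm) ∉ M₁ := fun h => hd h hw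
      have h3 := hind x hx (2 * i) (by omega)
      rw [show 2 * (2 * i) = 4 * i by ring] at h3
      rw [h3] at h2
      simpa using h2
    · exfalso
      refine hno (prv L (4 * i)) ?_ ?_ rfl
      · unfold prv; split_ifs <;> omega
      · unfold prv; split_ifs <;> omega
  | false =>
    simp only [pp, cond_false] at *
    rcases hw2 with rfl | rfl
    · exfalso
      exact hno (4 * i + 2 + 1) (by omega) (by omega) rfl
    · have h2 : (((0, x, 4 * i + 2), (0, x, prv L (4 * i + 2))) : Nm × Nm) ∉ M₁ :=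
        fun h => hd h hw
      have h3 := hind x hx (2 * i + 1) (by omega)
      rw [show 2 * (2 * i + 1) = 4 * i + 2 by ring] at h3
      have h4 := (heven x hx (4 * i + 2) (by omega) (by omega)).resolve_right h2
      rw [h3] at h4
      simpa using h4

end Back

/-! ### From assignments to matchings -/

section Forth

/-- the partner of a vertex of the first class in the first matching -/
def f1 (L : ℕ) (τ : ℕ → Bool) (u : Nm) : Nm :=
  if u.1 = 0 then
    (0, u.2.1, if u.2.2 % 2 = 0 then (if τ u.2.1 = true then prv L u.2.2 else u.2.2 + 1)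
      else u.2.2 - 1)
  else u

/-- the partner of a vertex of the second class in the first matching -/
def g1 (L : ℕ) (τ : ℕ → Bool) (v : Nm) : Nm :=
  if v.1 = 0 then
    (0, v.2.1, if v.2.2 % 2 = 0 then v.2.2 + 1
      else (if τ v.2.1 = true then (if v.2.2 = L - 1 then 0 else v.2.2 + 1) else v.2.2 - 1))
  else v

theorem isPM_one {φ : List Cl} (τ : ℕ → Bool) :
    IsPM (vs φ) (vs φ) (e1 φ) {e | e.1 ∈ vs φ ∧ e.2 = f1 (12 * φ.length) τ e.1} := by
  refine isPM_of_fun _ (g1 (12 * φ.length) τ) ?_ ?_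
  · intro u hu
    rw [mem_vs] at hu
    rcases hu with ⟨x, hx, k, hk, rfl⟩ | ⟨c, hc, rfl⟩
    · refine ⟨?_, ?_, ?_⟩
      · refine mem_vs.2 (Or.inl ⟨x, hx, _, ?_, rfl⟩)
        simp only [prv]
        split_ifs <;> omega
      · simp only [f1, g1, prv, if_true]
        refine Prod.ext rfl (Prod.ext rfl ?_)
        simp only
        split_ifs <;> first | omega | contradiction
      · rw [mem_e1]
        by_cases h0 : k % 2 = 0
        · refine Or.inl ⟨x, hx, k, hk, h0, rfl, ?_⟩
          simp only [f1, if_true, h0]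
          split_ifs
          · right; rfl
          · left; rfl
        · refine Or.inr (Or.inl ⟨x, hx, k, hk, by omega, rfl, ?_⟩)
          simp only [f1, if_true, if_neg h0]
    · refine ⟨?_, ?_, ?_⟩
      · exact mem_vs.2 (Or.inr ⟨c, hc, rfl⟩)
      · rfl
      · exact mem_e1.2 (Or.inr (Or.inr ⟨c, hc, rfl, rfl⟩))
  · intro v hv
    rw [mem_vs] at hv
    rcases hv with ⟨x, hx, k, hk, rfl⟩ | ⟨c, hc, rfl⟩
    · refine ⟨?_, ?_⟩
      · refine mem_vs.2 (Or.inl ⟨x, hx, _, ?_, rfl⟩)
        simp only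
        split_ifs <;> omega
      · simp only [f1, g1, prv, if_true]
        refine Prod.ext rfl (Prod.ext rfl ?_)
        simp only
        split_ifs <;> first | omega | contradiction
    · exact ⟨mem_vs.2 (Or.inr ⟨c, hc, rfl⟩), rfl⟩

/-- the literal of an occurrence -/
def litAt (φ : List Cl) (i : ℕ) : Lit ℕ := (lits φ).getD i (true, 0)

theorem mem_occ_litAt {φ : List Cl} {i : ℕ} (hi : i < 3 * φ.length) :
    (((litAt φ i).1, (litAt φ i).2), i) ∈ occ φ := by
  rw [mem_occ]
  unfold litAt
  rw [← length_lits] at hi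
  rw [List.getD_eq_getElem _ _ hi, List.getElem?_eq_getElem hi]

/-- the partner of a vertex of the first class in the second matching: `o c` is the occurrence
chosen for the clause `c` -/
def f2 (φ : List Cl) (o : ℕ → ℕ) (u : Nm) : Nm :=
  if u.1 = 0 then
    (if (litAt φ (u.2.2 / 4)).2 = u.2.1 ∧ o (u.2.2 / 4 / 3) = u.2.2 / 4 ∧
      u.2.2 = pp (litAt φ (u.2.2 / 4)).1 (u.2.2 / 4) then (0, u.2.1, 4 * (u.2.2 / 4) + 1)
    else if (litAt φ (u.2.2 / 4)).2 = u.2.1 ∧ o (u.2.2 / 4 / 3) = u.2.2 / 4 ∧
      u.2.2 = 4 * (u.2.2 / 4) + 1 then (1, u.2.2 / 4 / 3, 0)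
    else u)
  else (0, (litAt φ (o u.2.1)).2, pp (litAt φ (o u.2.1)).1 (o u.2.1))

/-- the partner of a vertex of the second class in the second matching -/
def g2 (φ : List Cl) (o : ℕ → ℕ) (u : Nm) : Nm :=
  if u.1 = 0 then
    (if (litAt φ (u.2.2 / 4)).2 = u.2.1 ∧ o (u.2.2 / 4 / 3) = u.2.2 / 4 ∧
      u.2.2 = pp (litAt φ (u.2.2 / 4)).1 (u.2.2 / 4) then (1, u.2.2 / 4 / 3, 0)
    else if (litAt φ (u.2.2 / 4)).2 = u.2.1 ∧ o (u.2.2 / 4 / 3) = u.2.2 / 4 ∧
      u.2.2 = 4 * (u.2.2 / 4) + 1 then (0, u.2.1, pp (litAt φ (u.2.2 / 4)).1 (u.2.2 / 4))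
    else u)
  else (0, (litAt φ (o u.2.1)).2, 4 * o u.2.1 + 1)

theorem pp_div (s : Bool) (i : ℕ) : pp s i / 4 = i := by
  unfold pp; cases s <;> simp <;> omega

theorem pp_ne (s : Bool) (i : ℕ) : pp s i ≠ 4 * i + 1 := by
  unfold pp; cases s <;> simp

theorem isPM_two {φ : List Cl} (hb : Bounded3 φ) (o : ℕ → ℕ) (ho : ∀ c < φ.length, o c / 3 = c) :
    IsPM (vs φ) (vs φ) (e1 φ ++ e2 φ) {e | e.1 ∈ vs φ ∧ e.2 = f2 φ o e.1} := by
  have hol : ∀ c < φ.length, o c < 3 * φ.length := by
    intro c hc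
    have := ho c hc
    omega
  have hx' : ∀ i < 3 * φ.length, (litAt φ i).2 < 3 * φ.length := fun i hi =>
    occ_var_lt hb (mem_occ_litAt hi)
  have hpL : ∀ s i, i < 3 * φ.length → pp s i < 12 * φ.length := by
    intro s i hi
    unfold pp; cases s <;> simp <;> omega
  refine isPM_of_fun _ (g2 φ o) ?_ ?_
  · intro u hu
    rw [mem_vs] at hu
    rcases hu with ⟨x, hx, k, hk, rfl⟩ | ⟨c, hc, rfl⟩
    · have hk4 : k / 4 < 3 * φ.length := by omega
      by_cases h1 : (litAt φ (k / 4)).2 = x ∧ o (k / 4 / 3) = k / 4 ∧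
        k = pp (litAt φ (k / 4)).1 (k / 4)
      · have hf : f2 φ o (0, x, k) = (0, x, 4 * (k / 4) + 1) := by
          unfold f2
          simp only [if_true]
          rw [if_pos h1]
        rw [hf]
        obtain ⟨h1a, h1b, h1c⟩ := h1
        generalize hi : k / 4 = i at *
        have h4 : (4 * i + 1) / 4 = i := by omega
        refine ⟨mem_vs.2 (Or.inl ⟨x, hx, _, by omega, rfl⟩), ?_, ?_⟩
        · unfold g2
          simp only [if_true, h4]
          rw [if_neg (fun h => pp_ne _ _ h.2.2.symm), if_pos ⟨h1a, h1b, trivial⟩, ← h1c]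
        · refine List.mem_append_left _ (mem_e1.2 (Or.inl ⟨x, hx, k, hk, ?_, rfl, ?_⟩))
          · rw [h1c]; unfold pp; cases (litAt φ i).1 <;> simp <;> omega
          · revert h1c
            unfold pp prv
            cases (litAt φ i).1
            · simp only [cond_false]
              intro h
              right
              rw [if_neg (by omega), h]
              rfl
            · simp only [cond_true]
              intro h
              left
              rw [h]
      · by_cases h2 : (litAt φ (k / 4)).2 = x ∧ o (k / 4 / 3) = k / 4 ∧ k = 4 * (k / 4) + 1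
        · have hf : f2 φ o (0, x, k) = (1, k / 4 / 3, 0) := by
            unfold f2
            simp only [if_true]
            rw [if_neg h1, if_pos h2]
          rw [hf]
          obtain ⟨h1a, h1b, h1c⟩ := h2
          generalize hi : k / 4 = i at *
          refine ⟨mem_vs.2 (Or.inr ⟨_, by omega, rfl⟩), ?_, ?_⟩
          · unfold g2
            simp only [one_ne_zero, if_false, h1b, h1a]
            rw [← h1c]
          · refine List.mem_append_right _ (mem_e2.2 (Or.inr (Or.inr
              ⟨(litAt φ i).1, x, i, ?_, ?_, rfl⟩)))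
            · rw [← h1a]
              exact mem_occ_litAt hk4
            · rw [← h1c]
        · have hf : f2 φ o (0, x, k) = (0, x, k) := by
            unfold f2
            simp only [if_true]
            rw [if_neg h1, if_neg h2]
          have hg : g2 φ o (0, x, k) = (0, x, k) := by
            unfold g2
            simp only [if_true]
            rw [if_neg h1, if_neg h2]
          rw [hf]
          exact ⟨mem_vs.2 (Or.inl ⟨x, hx, k, hk, rfl⟩), hg,
            List.mem_append_right _ (mem_e2.2 (Or.inl ⟨x, hx, k, hk, rfl, rfl⟩))⟩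
    · have h1 := ho c hc
      have h2 := hol c hc
      have hf : f2 φ o (1, c, 0) = (0, (litAt φ (o c)).2, pp (litAt φ (o c)).1 (o c)) := by
        unfold f2
        simp only [one_ne_zero, if_false]
      rw [hf]
      refine ⟨mem_vs.2 (Or.inl ⟨_, hx' _ h2, _, hpL _ _ h2, rfl⟩), ?_, ?_⟩
      · unfold g2
        simp only [if_true, pp_div]
        rw [if_pos ⟨trivial, by rw [h1], trivial⟩, h1]
      · refine List.mem_append_right _ (mem_e2.2 (Or.inr (Or.inl
          ⟨_, _, o c, mem_occ_litAt h2, ?_, rfl⟩)))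
        rw [h1]
  · intro v hv
    rw [mem_vs] at hv
    rcases hv with ⟨x, hx, k, hk, rfl⟩ | ⟨c, hc, rfl⟩
    · have hk4 : k / 4 < 3 * φ.length := by omega
      by_cases h1 : (litAt φ (k / 4)).2 = x ∧ o (k / 4 / 3) = k / 4 ∧
        k = pp (litAt φ (k / 4)).1 (k / 4)
      · have hf : g2 φ o (0, x, k) = (1, k / 4 / 3, 0) := by
          unfold g2
          simp only [if_true]
          rw [if_pos h1]
        rw [hf]
        obtain ⟨h1a, h1b, h1c⟩ := h1
        generalize hi : k / 4 = i at *
        refine ⟨mem_vs.2 (Or.inr ⟨_, by omega, rfl⟩), ?_⟩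
        unfold f2
        simp only [one_ne_zero, if_false, h1b, h1a]
        rw [← h1c]
      · by_cases h2 : (litAt φ (k / 4)).2 = x ∧ o (k / 4 / 3) = k / 4 ∧ k = 4 * (k / 4) + 1
        · have hf : g2 φ o (0, x, k) = (0, x, pp (litAt φ (k / 4)).1 (k / 4)) := by
            unfold g2
            simp only [if_true]
            rw [if_neg h1, if_pos h2]
          rw [hf]
          obtain ⟨h1a, h1b, h1c⟩ := h2
          generalize hi : k / 4 = i at *
          refine ⟨mem_vs.2 (Or.inl ⟨x, hx, _, hpL _ _ hk4, rfl⟩), ?_⟩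
          unfold f2
          simp only [if_true, pp_div]
          rw [if_pos ⟨h1a, h1b, trivial⟩, ← h1c]
        · have hf : f2 φ o (0, x, k) = (0, x, k) := by
            unfold f2
            simp only [if_true]
            rw [if_neg h1, if_neg h2]
          have hg : g2 φ o (0, x, k) = (0, x, k) := by
            unfold g2
            simp only [if_true]
            rw [if_neg h1, if_neg h2]
          rw [hg]
          exact ⟨mem_vs.2 (Or.inl ⟨x, hx, k, hk, rfl⟩), hf⟩
    · have h1 := ho c hc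
      have h2 := hol c hc
      have hf : g2 φ o (1, c, 0) = (0, (litAt φ (o c)).2, 4 * o c + 1) := by
        unfold g2
        simp only [one_ne_zero, if_false]
      rw [hf]
      have h4 : (4 * o c + 1) / 4 = o c := by omega
      refine ⟨mem_vs.2 (Or.inl ⟨_, hx' _ h2, _, by omega, rfl⟩), ?_⟩
      unfold f2
      simp only [if_true, h4]
      rw [if_neg (fun h => pp_ne _ _ h.2.2.symm), if_pos ⟨trivial, by rw [h1], trivial⟩, h1]

theorem hasPair_of_sat {φ : List Cl} (hb : Bounded3 φ) (h : SAT3 φ) :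
    HasPair (vs φ) (vs φ) (e1 φ) (e2 φ) := by
  obtain ⟨τ, hτ⟩ := h
  rw [sat_iff] at hτ
  choose! s x o ho ho3 hos using hτ
  have hlit : ∀ c < φ.length, litAt φ (o c) = (s c, x c) := by
    intro c hc
    have := mem_occ.1 (ho c hc)
    unfold litAt
    rw [List.getD_eq_getElem?_getD, this]
    rfl
  refine ⟨_, _, isPM_one τ, isPM_two hb o ho3, ?_⟩
  rw [Set.disjoint_left]
  rintro ⟨u, v⟩ ⟨hu, hv⟩ ⟨-, hv'⟩
  simp only at hu hv hv'
  rw [hv] at hv'
  clear hv v
  rw [mem_vs] at hu
  rcases hu with ⟨y, hy, k, hk, rfl⟩ | ⟨c, hc, rfl⟩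
  · have hk4 : k / 4 < 3 * φ.length := by omega
    have hL : 12 * φ.length % 4 = 0 := by omega
    generalize 12 * φ.length = L at *
    unfold f2 f1 at hv'
    simp only [if_true] at hv'
    split_ifs at hv' with h1 h2 h3 h4 h5 h6 h7 h8 h9
    all_goals simp only [Prod.mk.injEq, true_and, zero_ne_one, false_and] at hv'
    · obtain ⟨h3a, h3b, h3c⟩ := h3
      have hc : k / 4 / 3 < φ.length := by omega
      have h5 := hlit _ hc
      rw [h3b] at h5
      rw [h5] at h3a h3c
      simp only at h3a h3c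
      have h6 := hos _ hc
      rw [h3a, h2] at h6
      rw [← h6] at h3c
      simp only [pp, cond_true] at h3c
      unfold prv at hv'
      split_ifs at hv' <;> omega
    · unfold prv at hv'
      split_ifs at hv' <;> omega
    · obtain ⟨h3a, h3b, h3c⟩ := h5
      have hc : k / 4 / 3 < φ.length := by omega
      have h5 := hlit _ hc
      rw [h3b] at h5
      rw [h5] at h3a h3c
      simp only at h3a h3c
      have h6 := hos _ hc
      rw [h3a] at h6
      rw [Bool.not_eq_true] at h2
      rw [← h6, h2] at h3c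
      simp only [pp, cond_false] at h3c
      omega
    · omega
    · omega
    · omega
  · unfold f2 f1 at hv'
    simp at hv'

end Forth

end Pool.Agent.NPC.U19.PM
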