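import Pool.Agent.NPC.Classes

/-!
# Two disjoint perfect matchings, the first one monochromatic
-/

namespace Pool.Agent.NPC.U19.PM

/-- `M` is a perfect matching of the bipartite graph with classes `U` and `V` consisting of edges from
the list `E` (an edge is a pair of a vertex in `U` and a vertex in `V`): every vertex in `U` and every
vertex in `V` is in exactly one edge of `M`. -/
def IsPM {α β : Type} (U : List α) (V : List β) (E : List (α × β)) (M : Set (α × β)) : Prop :=
  (∀ e ∈ M, e ∈ E) ∧ (∀ u ∈ U, ∃! v, (u, v) ∈ M) ∧ (∀ v ∈ V, ∃! u, (u, v) ∈ M)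

/-- There are disjoint perfect matchings `M₁`, `M₂` such that all edges of `M₁` are in `E₁` (the list
of the edges of colour `1`); `E₂` is the list of the edges of colour `2`. -/
def HasPair {α β : Type} (U : List α) (V : List β) (E₁ E₂ : List (α × β)) : Prop :=
  ∃ M₁ M₂ : Set (α × β), IsPM U V E₁ M₁ ∧ IsPM U V (E₁ ++ E₂) M₂ ∧ Disjoint M₁ M₂

/-- An instance: the lists of the vertices in the two classes, the list of the edges of colour `1`, the
list of the edges of colour `2`. -/
abbrev Inst : Type := List ℕ × List ℕ × List (ℕ × ℕ) × List (ℕ × ℕ)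

/-- The instance describes a simple bipartite graph with coloured edges: no vertex is listed twice,
the edges go from the first class to the second class, no edge is listed twice. -/
def IsInst (I : Inst) : Prop :=
  I.1.Nodup ∧ I.2.1.Nodup ∧ (I.2.2.1 ++ I.2.2.2).Nodup ∧
    ∀ e ∈ I.2.2.1 ++ I.2.2.2, e.1 ∈ I.1 ∧ e.2 ∈ I.2.1

/-- COL-2PM: a bipartite graph with edges of the colours `1` and `2` has two disjoint perfect
matchings the first of which uses edges of colour `1` only. -/
def Col2PM (I : Inst) : Prop := IsInst I ∧ HasPair I.1 I.2.1 I.2.2.1 I.2.2.2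

end Pool.Agent.NPC.U19.PM
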