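import Pool.Agent.U19.PM.Correct

/-!
# COL-2PM: the reduction is computable in polynomial time, and the problem is in NP
-/

namespace Pool.Agent.NPC.U19.PM

open Pool.Agent.H622R2 (ddup mem_ddup ddup_nodup ddup_poly)

/-- the code of a name -/
def cod (u : Nm) : ℕ := Nat.pair u.1 (Nat.pair u.2.1 u.2.2)

theorem cod_inj : Function.Injective cod := by
  rintro ⟨a, b, c⟩ ⟨a', b', c'⟩ h
  simp only [cod, Nat.pair_eq_pair] at h
  obtain ⟨rfl, rfl, rfl⟩ := h
  rfl

@[fun_prop]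
theorem poly_natPair {α : Type} [TEnc α] {f g : α → ℕ} (hf : Poly f) (hg : Poly g) :
    Poly (fun a => Nat.pair (f a) (g a)) := by
  unfold Nat.pair
  fun_prop

@[fun_prop]
theorem poly_cod {α : Type} [TEnc α] {f : α → Nm} (hf : Poly f) :
    Poly (fun a => cod (f a)) := by
  unfold cod
  fun_prop

@[fun_prop]
theorem poly_range_mul {α β : Type} [TEnc α] [TEnc β] {l : α → List β} (c : ℕ) (hl : Poly l) :
    Poly (fun a => List.range (c * (l a).length)) :=
  (UPoly.mul (UPoly.const c) (UPoly.length hl)).range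

@[fun_prop]
theorem poly_range_length {α β : Type} [TEnc α] [TEnc β] {l : α → List β} (hl : Poly l) :
    Poly (fun a => List.range (l a).length) :=
  (UPoly.length hl).range

attribute [fun_prop] ddup_poly

@[fun_prop]
theorem poly_prv {α : Type} [TEnc α] {f g : α → ℕ} (hf : Poly f) (hg : Poly g) :
    Poly (fun a => prv (f a) (g a)) := by
  unfold prv
  fun_prop

@[fun_prop]
theorem poly_pp {α : Type} [TEnc α] {f : α → Bool} {g : α → ℕ} (hf : Poly f) (hg : Poly g) :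
    Poly (fun a => pp (f a) (g a)) := by
  unfold pp
  fun_prop

theorem poly_vs : Poly vs := by
  unfold vs
  fun_prop

theorem poly_occ : Poly occ := by
  unfold occ
  fun_prop

theorem poly_e1 : Poly e1 := by
  unfold e1
  fun_prop

theorem poly_e2 : Poly e2 := by
  unfold e2
  have := poly_occ
  fun_prop

/-- the reduction -/
def red (φ : List Cl) : Inst :=
  ((vs φ).map cod, (vs φ).map cod, ddup ((e1 φ).map (Prod.map cod cod)),
    ddup ((e2 φ).map (Prod.map cod cod)))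

theorem poly_red : Poly red := by
  unfold red
  have h1 := poly_vs
  have h2 := poly_e1
  have h3 := poly_e2
  have h : (Prod.map cod cod) = fun p : Nm × Nm => (cod p.1, cod p.2) := rfl
  rw [h]
  fun_prop

theorem nodup_vs (φ : List Cl) : (vs φ).Nodup := by
  unfold vs
  rw [List.nodup_append]
  refine ⟨?_, ?_, ?_⟩
  · rw [List.nodup_flatMap]
    refine ⟨fun x _ => List.nodup_range.map fun a b h => by simpa using h, ?_⟩
    refine List.Pairwise.imp ?_ List.nodup_range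
    intro a b hab
    rw [Function.onFun, List.disjoint_left]
    intro y hy hy'
    simp only [List.mem_map] at hy hy'
    obtain ⟨c, _, rfl⟩ := hy
    obtain ⟨d, _, hd⟩ := hy'
    simp only [Prod.mk.injEq, true_and] at hd
    exact hab hd.1.symm
  · exact List.nodup_range.map fun a b h => by simpa using h
  · intro a ha b hb
    simp only [List.mem_flatMap, List.mem_map] at ha hb
    obtain ⟨x, _, k, _, rfl⟩ := ha
    obtain ⟨c, _, rfl⟩ := hb
    simp

theorem e1_sub {φ : List Cl} {u v : Nm} (h : (u, v) ∈ e1 φ) : u ∈ vs φ ∧ v ∈ vs φ := by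
  rw [mem_e1] at h
  simp only [mem_vs]
  rcases h with ⟨x, hx, k, hk, h0, rfl, h | h⟩ | ⟨x, hx, k, hk, h0, rfl, h⟩ | ⟨c, hc, rfl, rfl⟩
  · exact ⟨Or.inl ⟨x, hx, k, hk, rfl⟩, Or.inl ⟨x, hx, k + 1, by omega, h⟩⟩
  · refine ⟨Or.inl ⟨x, hx, k, hk, rfl⟩, Or.inl ⟨x, hx, _, ?_, h⟩⟩
    unfold prv
    split_ifs <;> omega
  · exact ⟨Or.inl ⟨x, hx, k, hk, rfl⟩, Or.inl ⟨x, hx, k - 1, by omega, h⟩⟩
  · exact ⟨Or.inr ⟨c, hc, rfl⟩, Or.inr ⟨c, hc, rfl⟩⟩

theorem e2_sub {φ : List Cl} (hb : Bounded3 φ) {u v : Nm} (h : (u, v) ∈ e2 φ) :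
    u ∈ vs φ ∧ v ∈ vs φ := by
  rw [mem_e2] at h
  simp only [mem_vs]
  rcases h with ⟨x, hx, k, hk, rfl, rfl⟩ | ⟨s, x, i, ho, rfl, rfl⟩ | ⟨s, x, i, ho, rfl, rfl⟩
  · exact ⟨Or.inl ⟨x, hx, k, hk, rfl⟩, Or.inl ⟨x, hx, k, hk, rfl⟩⟩
  · have h1 := occ_lt ho
    have h2 := occ_var_lt hb ho
    refine ⟨Or.inr ⟨_, by omega, rfl⟩, Or.inl ⟨x, h2, _, ?_, rfl⟩⟩
    unfold pp
    cases s <;> simp <;> omega
  · have h1 := occ_lt ho
    have h2 := occ_var_lt hb ho
    exact ⟨Or.inl ⟨x, h2, _, by omega, rfl⟩, Or.inr ⟨_, by omega, rfl⟩⟩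

theorem e1_e2_disj {φ : List Cl} {u v : Nm} (h : (u, v) ∈ e1 φ) (h' : (u, v) ∈ e2 φ) : False := by
  rw [mem_e1] at h
  rw [mem_e2] at h'
  have hp : ∀ (L k : ℕ), 0 < L → L % 2 = 0 → k % 2 = 0 → prv L k ≠ k := by
    intro L k h1 h2 h3
    unfold prv
    split_ifs <;> omega
  rcases h with ⟨x, hx, k, hk, h0, rfl, h | h⟩ | ⟨x, hx, k, hk, h0, rfl, h⟩ | ⟨c, hc, rfl, h⟩ <;>
  rcases h' with ⟨x', hx', k', hk', h1, h2⟩ | ⟨s', x', i', ho', h1, h2⟩ |
    ⟨s', x', i', ho', h1, h2⟩ <;>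
  rw [h] at h2 <;> simp only [Prod.mk.injEq] at h1 h2 <;> first
    | omega
    | exact hp (12 * φ.length) _ (by omega) (by omega) h0 (by omega)
    | exact hp (12 * φ.length) _ (by omega) (by omega) h0 h2.2
    | simp_all

theorem isInst_red {φ : List Cl} (hb : Bounded3 φ) : IsInst (red φ) := by
  have hPM : Function.Injective (Prod.map cod cod) := cod_inj.prodMap cod_inj
  refine ⟨(nodup_vs φ).map cod_inj, (nodup_vs φ).map cod_inj, ?_, ?_⟩
  · rw [List.nodup_append]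
    refine ⟨ddup_nodup _, ddup_nodup _, ?_⟩
    intro a ha b hb hab
    subst hab
    rw [red, mem_ddup, List.mem_map] at ha hb
    obtain ⟨⟨u, v⟩, h1, rfl⟩ := ha
    obtain ⟨⟨u', v'⟩, h2, h3⟩ := hb
    have h4 := hPM h3
    rw [h4] at h2
    exact e1_e2_disj h1 h2
  · intro e he
    rw [red, List.mem_append, mem_ddup, mem_ddup, List.mem_map, List.mem_map] at he
    rcases he with ⟨⟨u, v⟩, h1, rfl⟩ | ⟨⟨u, v⟩, h1, rfl⟩
    · have h2 := e1_sub h1
      exact ⟨List.mem_map_of_mem h2.1, List.mem_map_of_mem h2.2⟩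
    · have h2 := e2_sub hb h1
      exact ⟨List.mem_map_of_mem h2.1, List.mem_map_of_mem h2.2⟩

theorem IsPM.congr {α β : Type} {U : List α} {V : List β} {E E' : List (α × β)}
    {M : Set (α × β)} (h : ∀ e, e ∈ E ↔ e ∈ E') (hM : IsPM U V E M) : IsPM U V E' M :=
  ⟨fun e he => (h e).1 (hM.1 e he), hM.2.1, hM.2.2⟩

theorem hasPair_congr {α β : Type} {U : List α} {V : List β} {E₁ E₂ E₁' E₂' : List (α × β)}
    (h1 : ∀ e, e ∈ E₁ ↔ e ∈ E₁') (h2 : ∀ e, e ∈ E₂ ↔ e ∈ E₂') :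
    HasPair U V E₁ E₂ ↔ HasPair U V E₁' E₂' := by
  have h3 : ∀ e, e ∈ E₁ ++ E₂ ↔ e ∈ E₁' ++ E₂' := by
    intro e
    rw [List.mem_append, List.mem_append, h1, h2]
  constructor
  · rintro ⟨M₁, M₂, a, b, c⟩
    exact ⟨M₁, M₂, a.congr h1, b.congr h3, c⟩
  · rintro ⟨M₁, M₂, a, b, c⟩
    exact ⟨M₁, M₂, a.congr (fun e => (h1 e).symm), b.congr (fun e => (h3 e).symm), c⟩

theorem red_correct {φ : List Cl} (hb : Bounded3 φ) :
    SAT3 φ ↔ HasPair (red φ).1 (red φ).2.1 (red φ).2.2.1 (red φ).2.2.2 := by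
  have h1 : HasPair (red φ).1 (red φ).2.1 (red φ).2.2.1 (red φ).2.2.2 ↔
      HasPair ((vs φ).map cod) ((vs φ).map cod) ((e1 φ).map (Prod.map cod cod))
        ((e2 φ).map (Prod.map cod cod)) :=
    hasPair_congr (fun e => mem_ddup _ e) (fun e => mem_ddup _ e)
  rw [h1, hasPair_map cod_inj cod_inj]
  exact ⟨hasPair_of_sat hb, sat_of_hasPair hb⟩

theorem hardPr_pair : HardPr IsInst (fun I : Inst => HasPair I.1 I.2.1 I.2.2.1 I.2.2.2) :=
  hardPr_SAT3b.trans poly_red (fun _ h => isInst_red h.2.1) (fun _ h => red_correct h.2.1)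

theorem hard_col2pm : NPHardP Col2PM := by
  have h : HardPr IsInst Col2PM :=
    hardPr_pair.trans Poly.id (fun _ h => h)
      (fun I h => ⟨fun h' => ⟨h, h'⟩, fun h' => h'.2⟩)
  exact h.toHardI.toNPHardP

/-! ### Membership in NP -/

/-- checks that the list `M` is a perfect matching -/
def pmB (U V : List ℕ) (E M : List (ℕ × ℕ)) : Bool :=
  (M.all (fun e => decide (e ∈ E))) &&
  ((U.all (fun u => decide ((M.filter (fun e => decide (e.1 = u))).length = 1))) &&
  (V.all (fun v => decide ((M.filter (fun e => decide (e.2 = v))).length = 1))))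

@[fun_prop]
theorem poly_pmB {α : Type} [TEnc α] {U V : α → List ℕ} {E M : α → List (ℕ × ℕ)} (hU : Poly U)
    (hV : Poly V) (hE : Poly E) (hM : Poly M) : Poly (fun a => pmB (U a) (V a) (E a) (M a)) := by
  unfold pmB
  fun_prop

theorem isPM_of_pmB {U V : List ℕ} {E M : List (ℕ × ℕ)} (h : pmB U V E M = true) :
    IsPM U V E {e | e ∈ M} := by
  simp only [pmB, Bool.and_eq_true, List.all_eq_true, decide_eq_true_eq] at h
  obtain ⟨h1, h2, h3⟩ := h
  refine ⟨h1, ?_, ?_⟩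
  · intro u hu
    obtain ⟨e, he⟩ := List.length_eq_one_iff.1 (h2 u hu)
    have hm : ∀ x, x ∈ M.filter (fun e => decide (e.1 = u)) ↔ x = e := by
      intro x; rw [he]; simp
    have h4 := (List.mem_filter.1 ((hm e).2 rfl))
    simp only [decide_eq_true_eq] at h4
    refine ⟨e.2, ?_, ?_⟩
    · change (u, e.2) ∈ M
      rw [← h4.2]
      exact h4.1
    · intro z hz
      have h5 := (hm (u, z)).1 (List.mem_filter.2 ⟨hz, by simp⟩)
      rw [← h5]
  · intro v hv
    obtain ⟨e, he⟩ := List.length_eq_one_iff.1 (h3 v hv)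
    have hm : ∀ x, x ∈ M.filter (fun e => decide (e.2 = v)) ↔ x = e := by
      intro x; rw [he]; simp
    have h4 := (List.mem_filter.1 ((hm e).2 rfl))
    simp only [decide_eq_true_eq] at h4
    refine ⟨e.1, ?_, ?_⟩
    · change (e.1, v) ∈ M
      rw [← h4.2]
      exact h4.1
    · intro z hz
      have h5 := (hm (z, v)).1 (List.mem_filter.2 ⟨hz, by simp⟩)
      rw [← h5]

theorem length_one_of {β : Type} {l : List β} {x : β} (hl : l.Nodup)
    (hm : ∀ y, y ∈ l ↔ y = x) : l.length = 1 := by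
  match l, hl with
  | [], _ => have := (hm x).2 rfl; simp at this
  | [a], _ => rfl
  | a :: b :: l, hl =>
    exfalso
    have h1 := (hm a).1 (by simp)
    have h2 := (hm b).1 (by simp)
    rw [h1, h2] at hl
    simp at hl

open Classical in
theorem pmB_of_isPM {U V : List ℕ} {E : List (ℕ × ℕ)} {M : Set (ℕ × ℕ)} (hE : E.Nodup)
    (h : IsPM U V E M) : pmB U V E (E.filter (fun e => decide (e ∈ M))) = true := by
  obtain ⟨h1, h2, h3⟩ := h
  simp only [pmB, Bool.and_eq_true, List.all_eq_true, decide_eq_true_eq]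
  refine ⟨fun e he => (List.mem_filter.1 he).1, ?_, ?_⟩
  · intro u hu
    obtain ⟨v, hv, hvu⟩ := h2 u hu
    refine length_one_of (x := (u, v)) ((hE.filter _).filter _) ?_
    rintro ⟨a, b⟩
    simp only [List.mem_filter, decide_eq_true_eq, Prod.mk.injEq]
    constructor
    · rintro ⟨⟨-, h4⟩, rfl⟩
      exact ⟨rfl, hvu _ h4⟩
    · rintro ⟨rfl, rfl⟩
      exact ⟨⟨h1 _ hv, hv⟩, rfl⟩
  · intro v hv
    obtain ⟨u, hu, huv⟩ := h3 v hv
    refine length_one_of (x := (u, v)) ((hE.filter _).filter _) ?_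
    rintro ⟨a, b⟩
    simp only [List.mem_filter, decide_eq_true_eq, Prod.mk.injEq]
    constructor
    · rintro ⟨⟨-, h4⟩, rfl⟩
      exact ⟨huv _ h4, rfl⟩
    · rintro ⟨rfl, rfl⟩
      exact ⟨⟨h1 _ hu, hu⟩, rfl⟩

/-- the instance is well-formed, as a Boolean -/
def isInstB (I : Inst) : Bool :=
  decide (ddup I.1 = I.1) && (decide (ddup I.2.1 = I.2.1) &&
  (decide (ddup (I.2.2.1 ++ I.2.2.2) = I.2.2.1 ++ I.2.2.2) &&
    (I.2.2.1 ++ I.2.2.2).all (fun e => decide (e.1 ∈ I.1) && decide (e.2 ∈ I.2.1))))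

theorem ddup_eq_iff {β : Type} [DecidableEq β] : ∀ l : List β, ddup l = l ↔ l.Nodup
  | [] => by simp [ddup]
  | a :: l => by
    constructor
    · intro h; rw [← h]; exact ddup_nodup _
    · intro h
      rw [List.nodup_cons] at h
      have ih := (ddup_eq_iff l).2 h.2
      unfold ddup at *
      rw [List.foldr_cons, ih, if_neg h.1]

theorem isInstB_iff (I : Inst) : isInstB I = true ↔ IsInst I := by
  unfold isInstB IsInst
  simp only [Bool.and_eq_true, decide_eq_true_eq, ddup_eq_iff, List.all_eq_true]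

/-- the verifier -/
def verB (p : Inst × (List (ℕ × ℕ) × List (ℕ × ℕ))) : Bool :=
  isInstB p.1 && (pmB p.1.1 p.1.2.1 p.1.2.2.1 p.2.1 &&
    (pmB p.1.1 p.1.2.1 (p.1.2.2.1 ++ p.1.2.2.2) p.2.2 &&
      p.2.1.all (fun e => !decide (e ∈ p.2.2))))

theorem poly_verB : Poly verB := by
  unfold verB isInstB
  fun_prop

theorem sz_filter_le {β : Type} [TEnc β] (l : List β) (p : β → Bool) : sz (l.filter p) ≤ sz l := by
  induction l with
  | nil => simp
  | cons a l ih =>
    rw [List.filter_cons]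
    split_ifs
    · simp; omega
    · simp; omega

open Classical in
theorem inNPP_col2pm : InNPP Col2PM := by
  refine inNPP_of (β := List (ℕ × ℕ) × List (ℕ × ℕ)) poly_verB (2 * Polynomial.X + 1) ?_
  intro I
  simp only [Polynomial.eval_add, Polynomial.eval_mul, Polynomial.eval_X, Polynomial.eval_one,
    Polynomial.eval_ofNat]
  constructor
  · rintro ⟨hI, M₁, M₂, h1, h2, h3⟩
    have hE := hI.2.2.1
    have hE1 : I.2.2.1.Nodup := (List.nodup_append.1 hE).1
    refine ⟨(I.2.2.1.filter (fun e => decide (e ∈ M₁)),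
      (I.2.2.1 ++ I.2.2.2).filter (fun e => decide (e ∈ M₂))), ?_, ?_⟩
    · have a1 := sz_filter_le I.2.2.1 (fun e => decide (e ∈ M₁))
      have a2 := sz_filter_le (I.2.2.1 ++ I.2.2.2) (fun e => decide (e ∈ M₂))
      have a3 := sz_append I.2.2.1 I.2.2.2
      obtain ⟨U, V, E₁, E₂⟩ := I
      simp only [sz_pair] at *
      omega
    · simp only [verB, Bool.and_eq_true, isInstB_iff, List.all_eq_true]
      refine ⟨hI, pmB_of_isPM hE1 h1, pmB_of_isPM hE h2, ?_⟩
      intro e he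
      simp only [Bool.not_eq_true', decide_eq_false_iff_not]
      intro he'
      rw [List.mem_filter, decide_eq_true_eq] at he he'
      exact (Set.disjoint_left.1 h3) he.2 he'.2
  · rintro ⟨⟨M₁, M₂⟩, -, h⟩
    simp only [verB, Bool.and_eq_true, isInstB_iff, List.all_eq_true] at h
    obtain ⟨hI, h1, h2, h3⟩ := h
    refine ⟨hI, {e | e ∈ M₁}, {e | e ∈ M₂}, isPM_of_pmB h1, isPM_of_pmB h2, ?_⟩
    rw [Set.disjoint_left]
    intro e he he'
    have := h3 e he
    simp only [Bool.not_eq_true', decide_eq_false_iff_not] at this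
    exact this he'

theorem decidable_iff :
    (∃ A : List Bool → List Bool, PolyTime A ∧
      ∀ I : Inst, IsInst I → (A (bits I) = [true] ↔ HasPair I.1 I.2.1 I.2.2.1 I.2.2.2)) ↔
    ∀ L : Set (List Bool), InNP L → InP L := by
  constructor
  · rintro ⟨A, hA, hA'⟩ L hL
    obtain ⟨f, hf, hpr, hfL⟩ := hardPr_pair L hL
    refine ⟨fun w => A (bits (f w)), Pool.Agent.H642R2.TMSim.polyTime_comp hA (PC.toPolyTime hf),
      fun w => ?_⟩
    rw [hfL w]
    exact (hA' (f w) (hpr w)).symm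
  · intro h
    obtain ⟨A, hA, hA'⟩ := h _ inNPP_col2pm
    refine ⟨A, hA, fun I hI => ?_⟩
    rw [← hA', bits_mem_lang]
    exact ⟨fun h => h.2, fun h => ⟨hI, h⟩⟩

end Pool.Agent.NPC.U19.PM
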