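import Pool.Agent.U19.PM.Defs
import Pool.Agent.NPC.Sat2
import Pool.Agent.NPC.Dec
import Pool.Agent.H671R2.Search
import Pool.Agent.H622R2.Base

/-!
# The reduction from 3SAT
-/

namespace Pool.Agent.NPC.U19.PM

open Pool.Agent.H622R2 (ddup mem_ddup ddup_nodup ddup_poly)

/-- transfer along injective renamings -/
theorem hasPair_map {α β α' β' : Type} {a : α → α'} {b : β → β'} (ha : Function.Injective a)
    (hb : Function.Injective b) (U : List α) (V : List β) (E₁ E₂ : List (α × β)) :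
    HasPair (U.map a) (V.map b) (E₁.map (Prod.map a b)) (E₂.map (Prod.map a b)) ↔
      HasPair U V E₁ E₂ := by
  have key : ∀ (E : List (α × β)) (M : Set (α' × β')), (∀ e ∈ M, e ∈ E.map (Prod.map a b)) →
      ∀ (u : α') (v : β'), (u, v) ∈ M → ∃ x y, (x, y) ∈ E ∧ u = a x ∧ v = b y := by
    intro E M h u v huv
    obtain ⟨⟨x, y⟩, hxy, h2⟩ := List.mem_map.1 (h _ huv)
    simp only [Prod.map_apply, Prod.mk.injEq] at h2
    exact ⟨x, y, hxy, h2.1.symm, h2.2.symm⟩
  have back : ∀ (E : List (α × β)) (M : Set (α' × β')),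
      IsPM (U.map a) (V.map b) (E.map (Prod.map a b)) M →
        IsPM U V E {e | (a e.1, b e.2) ∈ M} := by
    rintro E M ⟨h1, h2, h3⟩
    refine ⟨?_, ?_, ?_⟩
    · rintro ⟨x, y⟩ hxy
      obtain ⟨x', y', hE, hx, hy⟩ := key E M h1 _ _ hxy
      have e1 := ha hx
      have e2 := hb hy
      simp only at e1 e2
      subst e1 e2
      exact hE
    · intro u hu
      obtain ⟨v, hv, huniq⟩ := h2 (a u) (List.mem_map_of_mem hu)
      obtain ⟨x, y, -, -, rfl⟩ := key E M h1 _ _ hv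
      exact ⟨y, hv, fun z hz => hb (huniq _ hz)⟩
    · intro v hv
      obtain ⟨u, hu, huniq⟩ := h3 (b v) (List.mem_map_of_mem hv)
      obtain ⟨x, y, -, rfl, -⟩ := key E M h1 _ _ hu
      exact ⟨x, hu, fun z hz => ha (huniq _ hz)⟩
  have forth : ∀ (E : List (α × β)) (M : Set (α × β)), IsPM U V E M →
      IsPM (U.map a) (V.map b) (E.map (Prod.map a b)) (Prod.map a b '' M) := by
    rintro E M ⟨h1, h2, h3⟩
    refine ⟨?_, ?_, ?_⟩
    · rintro _ ⟨e, he, rfl⟩
      exact List.mem_map_of_mem (h1 e he)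
    · intro u' hu'
      obtain ⟨u, hu, rfl⟩ := List.mem_map.1 hu'
      obtain ⟨v, hv, huniq⟩ := h2 u hu
      refine ⟨b v, ⟨(u, v), hv, rfl⟩, ?_⟩
      rintro z ⟨⟨x, y⟩, hxy, h4⟩
      simp only [Prod.map_apply, Prod.mk.injEq] at h4
      have h5 := ha h4.1
      subst h5
      rw [← h4.2, huniq y hxy]
    · intro v' hv'
      obtain ⟨v, hv, rfl⟩ := List.mem_map.1 hv'
      obtain ⟨u, hu, huniq⟩ := h3 v hv
      refine ⟨a u, ⟨(u, v), hu, rfl⟩, ?_⟩
      rintro z ⟨⟨x, y⟩, hxy, h4⟩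
      simp only [Prod.map_apply, Prod.mk.injEq] at h4
      have h5 := hb h4.2
      subst h5
      rw [← h4.1, huniq x hxy]
  constructor
  · rintro ⟨M₁, M₂, h1, h2, h3⟩
    rw [← List.map_append] at h2
    refine ⟨_, _, back _ _ h1, back _ _ h2, ?_⟩
    rw [Set.disjoint_left] at h3 ⊢
    exact fun e he he' => h3 he he'
  · rintro ⟨M₁, M₂, h1, h2, h3⟩
    refine ⟨Prod.map a b '' M₁, Prod.map a b '' M₂, forth _ _ h1, ?_, ?_⟩
    · rw [← List.map_append]
      exact forth _ _ h2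
    · exact (Set.disjoint_image_iff (ha.prodMap hb)).2 h3

/-- the names of the vertices: `(0, x, k)` for the vertices with number `k` of the variable `x`,
`(1, c, 0)` for the vertices of the clause `c` -/
abbrev Nm : Type := ℕ × ℕ × ℕ

/-- a clause -/
abbrev Cl : Type := Lit ℕ × Lit ℕ × Lit ℕ

/-- the predecessor modulo `L` -/
def prv (L k : ℕ) : ℕ := if k = 0 then L - 1 else k - 1

/-- the three literals of a clause with their positions -/
def occ (φ : List Cl) : List (Lit ℕ × ℕ) := (φ.flatMap (fun c => [c.1, c.2.1, c.2.2])).zipIdx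

/-- the vertices -/
def vs (φ : List Cl) : List Nm :=
  (List.range (3 * φ.length)).flatMap (fun x => (List.range (12 * φ.length)).map fun k => (0, x, k)) ++
    (List.range φ.length).map (fun c => (1, c, 0))

/-- the edges of colour `1` -/
def e1 (φ : List Cl) : List (Nm × Nm) :=
  (List.range (3 * φ.length)).flatMap (fun x => (List.range (12 * φ.length)).flatMap fun k =>
    if k % 2 = 0 then [((0, x, k), (0, x, k + 1)), ((0, x, k), (0, x, prv (12 * φ.length) k))]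
    else [((0, x, k), (0, x, k - 1))]) ++
    (List.range φ.length).map (fun c => ((1, c, 0), (1, c, 0)))

/-- the vertex number of the first end of the edge of an occurrence -/
def pp (s : Bool) (i : ℕ) : ℕ := bif s then 4 * i else 4 * i + 2

/-- the edges of colour `2` -/
def e2 (φ : List Cl) : List (Nm × Nm) :=
  (List.range (3 * φ.length)).flatMap (fun x => (List.range (12 * φ.length)).map fun k =>
    ((0, x, k), (0, x, k))) ++
    (occ φ).flatMap (fun o => [((1, o.2 / 3, 0), (0, o.1.2, pp o.1.1 o.2)),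
      ((0, o.1.2, 4 * o.2 + 1), (1, o.2 / 3, 0))])

theorem mem_e1 {φ : List Cl} {u v : Nm} : (u, v) ∈ e1 φ ↔
    (∃ x < 3 * φ.length, ∃ k < 12 * φ.length, k % 2 = 0 ∧ u = (0, x, k) ∧
      (v = (0, x, k + 1) ∨ v = (0, x, prv (12 * φ.length) k))) ∨
    (∃ x < 3 * φ.length, ∃ k < 12 * φ.length, k % 2 = 1 ∧ u = (0, x, k) ∧ v = (0, x, k - 1)) ∨
    (∃ c < φ.length, u = (1, c, 0) ∧ v = (1, c, 0)) := by
  simp only [e1, List.mem_append, List.mem_flatMap, List.mem_range, List.mem_map, Prod.mk.injEq]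
  constructor
  · rintro (⟨x, hx, k, hk, h⟩ | ⟨c, hc, rfl, rfl⟩)
    · split_ifs at h with h0
      · simp only [List.mem_cons, Prod.mk.injEq, List.not_mem_nil, or_false] at h
        rcases h with ⟨h1, h2⟩ | ⟨h1, h2⟩
        · exact Or.inl ⟨x, hx, k, hk, h0, h1, Or.inl h2⟩
        · exact Or.inl ⟨x, hx, k, hk, h0, h1, Or.inr h2⟩
      · simp only [List.mem_cons, Prod.mk.injEq, List.not_mem_nil, or_false] at h
        exact Or.inr (Or.inl ⟨x, hx, k, hk, by omega, h.1, h.2⟩)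
    · exact Or.inr (Or.inr ⟨c, hc, rfl, rfl⟩)
  · rintro (⟨x, hx, k, hk, h0, rfl, h⟩ | ⟨x, hx, k, hk, h0, rfl, rfl⟩ | ⟨c, hc, rfl, rfl⟩)
    · left
      refine ⟨x, hx, k, hk, ?_⟩
      rw [if_pos h0]
      rcases h with rfl | rfl <;> simp
    · left
      refine ⟨x, hx, k, hk, ?_⟩
      rw [if_neg (by omega)]
      simp
    · right
      exact ⟨c, hc, rfl, rfl⟩

theorem mem_e2 {φ : List Cl} {u v : Nm} : (u, v) ∈ e2 φ ↔
    (∃ x < 3 * φ.length, ∃ k < 12 * φ.length, u = (0, x, k) ∧ v = (0, x, k)) ∨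
    (∃ s x i, ((s, x), i) ∈ occ φ ∧ u = (1, i / 3, 0) ∧ v = (0, x, pp s i)) ∨
    (∃ s x i, ((s, x), i) ∈ occ φ ∧ u = (0, x, 4 * i + 1) ∧ v = (1, i / 3, 0)) := by
  simp only [e2, List.mem_append, List.mem_flatMap, List.mem_range, List.mem_map,
    List.mem_cons, List.not_mem_nil, or_false]
  constructor
  · rintro (⟨x, hx, k, hk, h⟩ | ⟨⟨⟨s, x⟩, i⟩, ho, h⟩)
    · rw [Prod.mk.injEq] at h
      exact Or.inl ⟨x, hx, k, hk, h.1.symm, h.2.symm⟩
    · rcases h with h | h <;> rw [Prod.mk.injEq] at h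
      · exact Or.inr (Or.inl ⟨s, x, i, ho, h.1, h.2⟩)
      · exact Or.inr (Or.inr ⟨s, x, i, ho, h.1, h.2⟩)
  · rintro (⟨x, hx, k, hk, rfl, rfl⟩ | ⟨s, x, i, ho, rfl, rfl⟩ | ⟨s, x, i, ho, rfl, rfl⟩)
    · exact Or.inl ⟨x, hx, k, hk, rfl⟩
    · exact Or.inr ⟨((s, x), i), ho, Or.inl rfl⟩
    · exact Or.inr ⟨((s, x), i), ho, Or.inr rfl⟩

theorem mem_vs {φ : List Cl} {u : Nm} : u ∈ vs φ ↔
    (∃ x < 3 * φ.length, ∃ k < 12 * φ.length, u = (0, x, k)) ∨ (∃ c < φ.length, u = (1, c, 0)) := by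
  simp only [vs, List.mem_append, List.mem_flatMap, List.mem_range, List.mem_map, eq_comm]

end Pool.Agent.NPC.U19.PM
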